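import Pool.Agent.Helper12.RQ.Goals

/-!
# Estimate (E1) with the constant `C1`
-/

open MeasureTheory Set Filter Topology Metric
open scoped ENNReal NNReal

namespace Pool.Agent.Helper6.RQ

open Pool.Agent.Helper12.RQ

theorem root_le {k Y B q : ℝ} {N : ℝ≥0∞} (hk : 0 < k) (hY : 0 ≤ Y) (hB : 0 ≤ B) (hq : 0 < q)
    (h : ENNReal.ofReal (k * Y ^ q) ≤ ENNReal.ofReal B * N) :
    ENNReal.ofReal Y ≤ ENNReal.ofReal ((B / k) ^ (1 / q)) * N ^ (1 / q) := by
  have hk' : ENNReal.ofReal k ≠ 0 := (ENNReal.ofReal_pos.2 hk).ne'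
  have h1 : ENNReal.ofReal (Y ^ q) ≤ ENNReal.ofReal (B / k) * N := by
    rw [ENNReal.ofReal_div_of_pos hk, ← ENNReal.mul_div_right_comm,
      ENNReal.le_div_iff_mul_le (Or.inl hk') (Or.inl ENNReal.ofReal_ne_top), mul_comm,
      ← ENNReal.ofReal_mul hk.le]
    exact h
  have h2 := ENNReal.rpow_le_rpow h1 (z := 1 / q) (by positivity)
  rw [ENNReal.mul_rpow_of_nonneg _ _ (by positivity),
    ENNReal.ofReal_rpow_of_nonneg (by positivity) (by positivity),
    ENNReal.ofReal_rpow_of_nonneg (by positivity) (by positivity),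
    ← Real.rpow_mul hY, mul_one_div_cancel hq.ne', Real.rpow_one] at h2
  exact h2

theorem nrm_mono {n : ℕ} {s : ℝ} (hs : 0 < s) (Q : E n → ℝ≥0∞) {A B : Set (E n)} (h : A ⊆ B) :
    nrm s Q A ≤ nrm s Q B :=
  ENNReal.rpow_le_rpow (lintegral_mono_set h) (by positivity)

theorem closedBall_sub {n : ℕ} {G : Set (E n)} {x₀ : E n} {R : ℝ}
    (h : ENNReal.ofReal R < bdist G x₀) : closedBall x₀ R ⊆ G := by
  intro y hy
  by_contra hn
  have h1 : bdist G x₀ ≤ edist x₀ y := infEDist_le_edist_of_mem hn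
  have h2 : edist x₀ y ≤ ENNReal.ofReal R := by
    rw [edist_comm, edist_dist]
    exact ENNReal.ofReal_le_ofReal (mem_closedBall.1 hy)
  exact absurd (h1.trans h2) (not_le.2 h)

theorem e1u (h1 : StmtMAS) (h2 : StmtPOS) : StmtE1U := by
  intro n p hn hp1 hp2 D hD G x₀ Q f hd x hx hlt
  have hn' : (2 : ℝ) ≤ n := by exact_mod_cast hn
  have hp0 : 0 < p := by linarith
  have hnp : 0 < n - p := by linarith
  have hn0 : (0 : ℝ) < n := by linarith
  obtain ⟨hs1, hs2⟩ := h2 n p hn hp1 hp2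
  have hkap : 0 < kap n p := ENNReal.toReal_pos hs1.ne' hs2.ne
  set r : ℝ := ‖x - x₀‖ with hr
  have hr0 : 0 < r := norm_pos_iff.2 (sub_ne_zero.2 hx)
  have hrd : edist x x₀ = ENNReal.ofReal r := by rw [edist_dist, dist_eq_norm]
  rw [hrd, lt_min_iff] at hlt
  have hr1 : r < 1 := by
    have := hlt.1
    rwa [← ENNReal.ofReal_one, ENNReal.ofReal_lt_ofReal_iff one_pos] at this
  set t : ℝ := r ^ (1 / 4 : ℝ) with ht
  have ht0 : 0 < t := Real.rpow_pos_of_pos hr0 _
  have ht4 : t ^ 4 = r := by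
    rw [ht, ← Real.rpow_natCast, ← Real.rpow_mul hr0.le]; norm_num
  have hlt2 : ENNReal.ofReal t < min 1 (bdist G x₀) := by
    rw [lt_min_iff]
    constructor
    · rw [← ENNReal.ofReal_one, ENNReal.ofReal_lt_ofReal_iff one_pos]
      exact Real.rpow_lt_one hr0.le hr1 (by norm_num)
    · by_contra hcon
      rw [not_lt] at hcon
      have : bdist G x₀ ^ 4 ≤ ENNReal.ofReal t ^ 4 := by gcongr
      rw [← ENNReal.ofReal_pow ht0.le, ht4] at this
      exact absurd (hlt.2.trans_le this) (lt_irrefl _)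
  obtain ⟨R, hR0, hR1, hR2⟩ := ENNReal.lt_iff_exists_real_btwn.1 hlt2
  have hRt : t < R := by
    rwa [ENNReal.ofReal_lt_ofReal_iff_of_nonneg ht0.le] at hR1
  have hR0' : 0 < R := ht0.trans hRt
  have hRd := (lt_min_iff.1 hR2).2
  have hrt : r < t := by
    rw [← ht4]
    have : t < 1 := Real.rpow_lt_one hr0.le hr1 (by norm_num)
    calc t ^ 4 = t ^ 3 * t := by ring
      _ < 1 * t := by
        apply mul_lt_mul_of_pos_right _ ht0
        exact pow_lt_one₀ ht0.le this (by norm_num)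
      _ = t := one_mul t
  have hrR : r < R := hrt.trans hRt
  set al : ℝ := n / (n - p) with hal
  have hal1 : 1 < al := by rw [hal, lt_div_iff₀ hnp]; linarith
  have hm := h1 n p hn hp1 hp2 G x₀ Q f hd al hal1 x r R hr0 hrR (closedBall_sub hRd) le_rfl
  have hb : bexp n p al = 0 := by
    rw [bexp, hal, div_mul_cancel₀ _ hnp.ne', sub_self, zero_div]
  have hint : ∫ s in r..R, s ^ (-bexp n p al - 1) = Real.log (R / r) := by
    rw [hb, neg_zero, zero_sub]
    simp only [Real.rpow_neg_one]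
    exact integral_inv_of_pos hr0 hR0'
  have ha1 : 1 - 1 / al = p / n := by rw [hal]; field_simp; ring
  have ha2 : p - 1 + 1 / al = p * (n - 1) / n := by rw [hal]; field_simp; ring
  rw [hint, ha1, ha2] at hm
  set c : ℝ := p * (n - 1) / n with hc
  have hc0 : 0 < c := by
    rw [hc]; have : (0 : ℝ) < n - 1 := by linarith
    positivity
  set L : ℝ := Real.log (1 / r) with hL
  have hL0 : 0 < L := Real.log_pos (by rw [lt_div_iff₀ hr0]; linarith)
  have hLL : 3 / 4 * L ≤ Real.log (R / r) := by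
    rw [hL, Real.log_div hR0'.ne' hr0.ne', Real.log_div one_ne_zero hr0.ne', Real.log_one]
    have h3 : Real.log t = 1 / 4 * Real.log r := by rw [ht, Real.log_rpow hr0]
    have h4 : Real.log t ≤ Real.log R := Real.log_le_log ht0 hRt.le
    linarith
  have hpw : Real.log (R / r) ^ (-c) ≤ (4 / 3) ^ c * L ^ (-c) := by
    have h5 : Real.log (R / r) ^ (-c) ≤ (3 / 4 * L) ^ (-c) :=
      Real.rpow_le_rpow_of_nonpos (by positivity) hLL (by linarith)
    refine h5.trans (le_of_eq ?_)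
    rw [Real.mul_rpow (by norm_num) hL0.le, Real.rpow_neg (by norm_num : (0 : ℝ) ≤ 3 / 4),
      ← Real.inv_rpow (by norm_num : (0 : ℝ) ≤ 3 / 4)]
    norm_num
  have hom : 0 ≤ om n := by unfold om; positivity
  have hA : {y | r < dist y x₀ ∧ dist y x₀ < R} ⊆ D G x₀ := by
    refine Subset.trans ?_ (hD G x₀)
    rintro y ⟨-, hy⟩
    show edist y x₀ < min 1 (bdist G x₀)
    rw [edist_dist]
    exact lt_of_le_of_lt (ENNReal.ofReal_le_ofReal hy.le) hR2
  have hm2 : ENNReal.ofReal (kap n p * ‖f x - f x₀‖ ^ (n - p)) ≤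
      ENNReal.ofReal (om n ^ (p / n) * ((4 / 3) ^ c * L ^ (-c))) * nrm al Q (D G x₀) := by
    refine hm.trans ?_
    gcongr
    exact nrm_mono (by linarith) Q hA
  have hm3 := root_le hkap (norm_nonneg _) (by positivity) hnp hm2
  refine hm3.trans (le_of_eq ?_)
  rw [mul_right_comm, ← ENNReal.ofReal_mul (by unfold C1; positivity)]
  congr 2
  have h6 : om n ^ (p / n) * ((4 / 3) ^ c * L ^ (-c)) / kap n p =
      (4 / 3) ^ c * (om n ^ (p / n) / kap n p) * L ^ (-c) := by ring
  rw [h6, Real.mul_rpow (by positivity) (by positivity),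
    Real.mul_rpow (by positivity) (by positivity), ← Real.rpow_mul (by norm_num),
    ← Real.rpow_mul hL0.le, C1]
  have h7 : c * (1 / (n - p)) = p * (n - 1) / (n * (n - p)) := by rw [hc]; field_simp
  rw [neg_mul, h7]

end Pool.Agent.Helper6.RQ
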