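import Pool.Agent.Helper12.RQ.Goals

/-!
# Gradients of the maximum and the minimum of two Lipschitz functions
-/

open MeasureTheory Filter Topology
open scoped ENNReal NNReal

namespace Pool.Agent.Helper6.RQ

open Pool.Agent.Helper12.RQ

theorem fd_eq {n : ℕ} {a b : E n → ℝ} {x : E n} (ha : DifferentiableAt ℝ a x)
    (hb : DifferentiableAt ℝ b x) (hab : ∀ y, a y ≤ b y) (hx : a x = b x) :
    fderiv ℝ a x = fderiv ℝ b x := by
  have hl : IsLocalMin (fun y => b y - a y) x := by
    refine Filter.Eventually.of_forall fun y => ?_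
    have := hab y
    change b x - a x ≤ b y - a y
    rw [hx]; linarith
  have h0 := hl.fderiv_eq_zero
  rw [fderiv_fun_sub hb ha] at h0
  exact (sub_eq_zero.1 h0).symm

theorem u2 : StmtU2 := by
  rintro n p u v ⟨C, hC⟩ ⟨D, hD⟩
  have hmax : LipschitzWith (max C D) (fun y => max (u y) (v y)) := hC.max hD
  have hmin : LipschitzWith (max C D) (fun y => min (u y) (v y)) := hC.min hD
  filter_upwards [hC.ae_differentiableAt, hD.ae_differentiableAt, hmax.ae_differentiableAt,
    hmin.ae_differentiableAt] with x h1 h2 h3 h4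
  have cu := hC.continuous.continuousAt (x := x)
  have cv := hD.continuous.continuousAt (x := x)
  rcases lt_trichotomy (u x) (v x) with h | h | h
  · have ev : ∀ᶠ y in 𝓝 x, u y < v y := cu.eventually_lt cv h
    have e1 : (fun y => max (u y) (v y)) =ᶠ[𝓝 x] v := by
      filter_upwards [ev] with y hy
      exact max_eq_right hy.le
    have e2 : (fun y => min (u y) (v y)) =ᶠ[𝓝 x] u := by
      filter_upwards [ev] with y hy
      exact min_eq_left hy.le
    rw [e1.fderiv_eq, e2.fderiv_eq, add_comm]
  · have k1 := fd_eq h1 h3 (fun y => le_max_left _ _) (by rw [← h, max_self])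
    have k2 := fd_eq h2 h3 (fun y => le_max_right _ _) (by rw [h, max_self])
    have k3 := fd_eq h4 h1 (fun y => min_le_left _ _) (by rw [← h, min_self])
    rw [k3, ← k1, ← k2.trans k1.symm]
  · have ev : ∀ᶠ y in 𝓝 x, v y < u y := cv.eventually_lt cu h
    have e1 : (fun y => max (u y) (v y)) =ᶠ[𝓝 x] u := by
      filter_upwards [ev] with y hy
      exact max_eq_left hy.le
    have e2 : (fun y => min (u y) (v y)) =ᶠ[𝓝 x] v := by
      filter_upwards [ev] with y hy
      exact min_eq_right hy.le
    rw [e1.fderiv_eq, e2.fderiv_eq]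

end Pool.Agent.Helper6.RQ
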